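import Mathlib
import Pool.Agent.H917R2.BP.Stm

/-!
Bounded projections onto von Neumann algebras: finite dimensional decomposition (task decF).
-/

set_option autoImplicit false

open scoped ComplexOrder InnerProductSpace ComplexConjugate Topology
open Matrix

noncomputable section

namespace H195BP

/-- the squared norm -/
def sq {d : ℕ} (η : Fin d → ℂ) : ℝ := ∑ p, ‖η p‖ ^ 2

theorem quadD {d : ℕ} (α : Fin d → ℝ) (w : Fin d → ℂ) :
    star w ⬝ᵥ ((diagonal fun p => (α p : ℂ)) *ᵥ w) = ((∑ p, α p * ‖w p‖ ^ 2 : ℝ) : ℂ) := by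
  simp only [dotProduct, mulVec_diagonal, Pi.star_apply]
  push_cast
  refine Finset.sum_congr rfl fun p _ => ?_
  have : (starRingEnd ℂ) (w p) * w p = ((‖w p‖ : ℝ) : ℂ) ^ 2 := Complex.conj_mul' (w p)
  have h2 : star (w p) = (starRingEnd ℂ) (w p) := rfl
  rw [h2, ← this]
  ring

theorem conj_quad {d : ℕ} (V D : Matrix (Fin d) (Fin d) ℂ) (η : Fin d → ℂ) :
    star η ⬝ᵥ ((V * D * Vᴴ) *ᵥ η) = star (Vᴴ *ᵥ η) ⬝ᵥ (D *ᵥ (Vᴴ *ᵥ η)) := by
  rw [star_mulVec, conjTranspose_conjTranspose, ← dotProduct_mulVec, mulVec_mulVec,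
    mulVec_mulVec, Matrix.mul_assoc]

theorem unit_sq {d : ℕ} (U : Matrix (Fin d) (Fin d) ℂ) (hU : Uᴴ * U = 1) (η : Fin d → ℂ) :
    ∑ p, ‖(U *ᵥ η) p‖ ^ 2 = ∑ p, ‖η p‖ ^ 2 := by
  have h1 := quadD (fun _ => 1) (U *ᵥ η)
  have h2 := quadD (fun _ => 1) η
  have h3 : (diagonal fun _ : Fin d => ((1 : ℝ) : ℂ)) = 1 := by
    rw [Complex.ofReal_one]
    exact diagonal_one
  rw [h3, one_mulVec] at h1 h2
  have h4 : star (U *ᵥ η) ⬝ᵥ (U *ᵥ η) = star η ⬝ᵥ η := by
    rw [star_mulVec, ← dotProduct_mulVec, mulVec_mulVec, hU, one_mulVec]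
  rw [h4, h2] at h1
  have h5 := Complex.ofReal_injective h1
  simp only [one_mul] at h5
  exact h5.symm

theorem main_diag (h1 : H917R2.BP.S_sch) {d : ℕ} {ι : Type} [Fintype ι]
    (V : ι → Matrix (Fin d) (Fin d) ℂ)
    (S l : ℝ) (hl : 0 < l) (α : Fin d → ℝ) (hα : ∀ p, 0 < α p)
    (E1 : ∀ η : Fin d → ℂ, ∑ i, ∑ p, α p * ‖((V i)ᴴ *ᵥ η) p‖ ^ 2 ≤ S * ∑ p, α p * ‖η p‖ ^ 2)
    (E2 : ∀ η : Fin d → ℂ, ∑ i, ∑ p, α p * ‖(V i *ᵥ η) p‖ ^ 2 ≤ S * ∑ p, α p * ‖η p‖ ^ 2) :
    ∃ X : ι → Matrix (Fin d) (Fin d) ℂ,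
      (∀ η : Fin d → ℂ, ∑ i, ∑ p, ‖((X i).mulVec η) p‖ ^ 2 ≤ S / (4 * l) * ∑ p, ‖η p‖ ^ 2) ∧
      ∀ η : Fin d → ℂ, ∑ i, ∑ p, ‖((V i - X i).conjTranspose.mulVec η) p‖ ^ 2 ≤
        S * l / 4 * ∑ p, ‖η p‖ ^ 2 := by
  -- general fact on `W`
  have gen : ∀ A : ι → Matrix (Fin d) (Fin d) ℂ,
      (∀ η : Fin d → ℂ, ∑ i, ∑ p, α p * ‖(A i *ᵥ η) p‖ ^ 2 ≤ S * ∑ p, α p * ‖η p‖ ^ 2) →
      ∀ η : Fin d → ℂ, ∑ i, ∑ p, ‖((Matrix.of fun p q =>
        ((Real.sqrt (α p) / Real.sqrt (α q) : ℝ) : ℂ) * A i p q) *ᵥ η) p‖ ^ 2 ≤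
          S * ∑ p, ‖η p‖ ^ 2 := by
    intro A hA η
    have h := hA (fun q => ((1 / Real.sqrt (α q) : ℝ) : ℂ) * η q)
    have e1 : ∀ p, α p * ‖((1 / Real.sqrt (α p) : ℝ) : ℂ) * η p‖ ^ 2 = ‖η p‖ ^ 2 := by
      intro p
      rw [norm_mul, mul_pow, Complex.norm_real, Real.norm_eq_abs, sq_abs, div_pow, one_pow,
        Real.sq_sqrt (hα p).le, ← mul_assoc, mul_one_div_cancel (hα p).ne', one_mul]
    have e2 : ∀ i p, ‖((Matrix.of fun p q =>
        ((Real.sqrt (α p) / Real.sqrt (α q) : ℝ) : ℂ) * A i p q) *ᵥ η) p‖ ^ 2 =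
        α p * ‖(A i *ᵥ fun q => ((1 / Real.sqrt (α q) : ℝ) : ℂ) * η q) p‖ ^ 2 := by
      intro i p
      have : ((Matrix.of fun p q =>
        ((Real.sqrt (α p) / Real.sqrt (α q) : ℝ) : ℂ) * A i p q) *ᵥ η) p =
          ((Real.sqrt (α p) : ℝ) : ℂ) *
            (A i *ᵥ fun q => ((1 / Real.sqrt (α q) : ℝ) : ℂ) * η q) p := by
        simp only [mulVec, dotProduct, Matrix.of_apply, Finset.mul_sum]
        refine Finset.sum_congr rfl fun q _ => ?_
        push_cast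
        ring
      rw [this, norm_mul, mul_pow, Complex.norm_real, Real.norm_eq_abs, sq_abs,
        Real.sq_sqrt (hα p).le]
    simp_rw [e2]
    simp_rw [e1] at h
    exact h
  have sl : Real.sqrt l ^ 2 = l := Real.sq_sqrt hl.le
  have sl0 : 0 < Real.sqrt l := Real.sqrt_pos.2 hl
  have hlα : ∀ p, 0 < l * α p := fun p => mul_pos hl (hα p)
  have sα : ∀ p, Real.sqrt (α p) ^ 2 = α p := fun p => Real.sq_sqrt (hα p).le
  have sα0 : ∀ p, 0 < Real.sqrt (α p) := fun p => Real.sqrt_pos.2 (hα p)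
  refine ⟨fun i => Matrix.of fun p q => ((α p / (α p + l * α q) : ℝ) : ℂ) * V i p q, ?_, ?_⟩
  · intro η
    have h := h1 d ι α (fun q => l * α q) hα hlα _ S (gen V E2) η
    have e : ∀ i p, ‖((Matrix.of fun p q => ((α p / (α p + l * α q) : ℝ) : ℂ) * V i p q) *ᵥ η) p‖ ^ 2
        = 1 / l * ‖((Matrix.of fun p q =>
          ((Real.sqrt (α p * (l * α q)) / (α p + l * α q) : ℝ) : ℂ) *
          (Matrix.of fun p q =>
        ((Real.sqrt (α p) / Real.sqrt (α q) : ℝ) : ℂ) * V i p q) p q) *ᵥ η) p‖ ^ 2 := by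
      intro i p
      have : ((Matrix.of fun p q => ((α p / (α p + l * α q) : ℝ) : ℂ) * V i p q) *ᵥ η) p
          = ((1 / Real.sqrt l : ℝ) : ℂ) * ((Matrix.of fun p q =>
          ((Real.sqrt (α p * (l * α q)) / (α p + l * α q) : ℝ) : ℂ) *
          (Matrix.of fun p q =>
        ((Real.sqrt (α p) / Real.sqrt (α q) : ℝ) : ℂ) * V i p q) p q) *ᵥ η) p := by
        simp only [mulVec, dotProduct, Matrix.of_apply, Finset.mul_sum]
        refine Finset.sum_congr rfl fun q _ => ?_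
        have e3 : (α p / (α p + l * α q) : ℝ) = 1 / Real.sqrt l *
            ((Real.sqrt (α p * (l * α q)) / (α p + l * α q)) *
              (Real.sqrt (α p) / Real.sqrt (α q))) := by
          rw [Real.sqrt_mul (hα p).le, Real.sqrt_mul hl.le]
          have h0 : α p + l * α q ≠ 0 := (add_pos (hα p) (hlα q)).ne'
          have h1 := (sα0 q).ne'
          have h2 := sl0.ne'
          have h3 := sα p
          field_simp
          rw [h3]
        rw [e3]
        push_cast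
        ring
      rw [this, norm_mul, mul_pow, Complex.norm_real, Real.norm_eq_abs, sq_abs, div_pow, one_pow, sl]
    simp_rw [e]
    simp_rw [← Finset.mul_sum]
    calc _ ≤ 1 / l * (S / 4 * ∑ p, ‖η p‖ ^ 2) :=
          mul_le_mul_of_nonneg_left h (by positivity)
      _ = _ := by
          field_simp
  · intro η
    have h := h1 d ι (fun q => l * α q) α hlα hα _ S (gen (fun i => (V i)ᴴ) E1) η
    have e : ∀ i p, ‖((V i - Matrix.of fun p q =>
        ((α p / (α p + l * α q) : ℝ) : ℂ) * V i p q).conjTranspose *ᵥ η) p‖ ^ 2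
        = l * ‖((Matrix.of fun p q =>
          ((Real.sqrt ((l * α p) * α q) / (l * α p + α q) : ℝ) : ℂ) *
          (Matrix.of fun p q =>
        ((Real.sqrt (α p) / Real.sqrt (α q) : ℝ) : ℂ) * (V i)ᴴ p q) p q) *ᵥ η) p‖ ^ 2 := by
      intro i p
      have : ((V i - Matrix.of fun p q =>
        ((α p / (α p + l * α q) : ℝ) : ℂ) * V i p q).conjTranspose *ᵥ η) p
          = ((Real.sqrt l : ℝ) : ℂ) * ((Matrix.of fun p q =>
          ((Real.sqrt ((l * α p) * α q) / (l * α p + α q) : ℝ) : ℂ) *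
          (Matrix.of fun p q =>
        ((Real.sqrt (α p) / Real.sqrt (α q) : ℝ) : ℂ) * (V i)ᴴ p q) p q) *ᵥ η) p := by
        simp only [mulVec, dotProduct, Matrix.of_apply, Finset.mul_sum, conjTranspose_apply,
          Matrix.sub_apply]
        refine Finset.sum_congr rfl fun q _ => ?_
        have e3 : (1 - α q / (α q + l * α p) : ℝ) = Real.sqrt l *
            ((Real.sqrt ((l * α p) * α q) / (l * α p + α q)) *
              (Real.sqrt (α p) / Real.sqrt (α q))) := by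
          rw [Real.sqrt_mul (hlα p).le, Real.sqrt_mul hl.le]
          have h0 : α q + l * α p ≠ 0 := (add_pos (hα q) (hlα p)).ne'
          have h0' : l * α p + α q ≠ 0 := (add_pos (hlα p) (hα q)).ne'
          have h1 := (sα0 q).ne'
          have h3 := sα p
          have h4 : Real.sqrt l * (Real.sqrt l * Real.sqrt (α p) * Real.sqrt (α q) /
              (l * α p + α q) * (Real.sqrt (α p) / Real.sqrt (α q))) =
              (Real.sqrt l ^ 2 * Real.sqrt (α p) ^ 2) / (l * α p + α q) := by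
            field_simp
          rw [h4, sl, h3]
          field_simp
          ring
        have e4 : star (V i q p - ((α q / (α q + l * α p) : ℝ) : ℂ) * V i q p) =
            ((1 - α q / (α q + l * α p) : ℝ) : ℂ) * star (V i q p) := by
          simp only [star_sub, star_mul']
          have : star (((α q / (α q + l * α p) : ℝ) : ℂ)) = ((α q / (α q + l * α p) : ℝ) : ℂ) :=
            Complex.conj_ofReal _
          rw [this]
          push_cast
          ring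
        rw [e4, e3]
        push_cast
        ring
      rw [this, norm_mul, mul_pow, Complex.norm_real, Real.norm_eq_abs, sq_abs, sl]
    simp_rw [e]
    simp_rw [← Finset.mul_sum]
    calc _ ≤ l * (S / 4 * ∑ p, ‖η p‖ ^ 2) :=
          mul_le_mul_of_nonneg_left h hl.le
      _ = _ := by ring

theorem t_decF (h1 : H917R2.BP.S_sch) (h2 : H917R2.BP.S_pf) : H917R2.BP.S_decF := by
  intro d ι _ V σ S0 S l hσ hS0 hS hl hV
  obtain ⟨a, ha, hpsd⟩ := h2 d ι V S0 S hS0 hS hV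
  set U : Matrix (Fin d) (Fin d) ℂ := (ha.1.eigenvectorUnitary : Matrix (Fin d) (Fin d) ℂ) with hUdef
  set α : Fin d → ℝ := ha.1.eigenvalues with hαdef
  have hα : ∀ p, 0 < α p := fun p => ha.eigenvalues_pos p
  have hU1 : Uᴴ * U = 1 := by
    have := Unitary.star_mul_self_of_mem (ha.1.eigenvectorUnitary).2
    exact this
  have hU2 : U * Uᴴ = 1 := by
    have := Unitary.mul_star_self_of_mem (ha.1.eigenvectorUnitary).2
    exact this
  set D : Matrix (Fin d) (Fin d) ℂ := diagonal fun p => (α p : ℂ) with hD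
  have haD : a = U * D * Uᴴ := by
    have := ha.1.spectral_theorem
    rw [Unitary.conjStarAlgAut_apply] at this
    exact this
  -- the conjugated family
  set V' : ι → Matrix (Fin d) (Fin d) ℂ := fun i => Uᴴ * V i * U with hV'
  have hV'σ : ∀ i, (V' (σ i)) = (V' i)ᴴ := by
    intro i
    simp only [hV', conjTranspose_mul, conjTranspose_conjTranspose, hσ i]
    rw [Matrix.mul_assoc]
  have hp : ((S : ℂ) • D - ∑ i, V' i * D * (V' i)ᴴ).PosSemidef := by
    have h := hpsd.conjTranspose_mul_mul_same U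
    have e : Uᴴ * ((S : ℂ) • a - ∑ i, V i * a * (V i)ᴴ) * U =
        (S : ℂ) • D - ∑ i, V' i * D * (V' i)ᴴ := by
      rw [Matrix.mul_sub, Matrix.sub_mul]
      congr 1
      · rw [haD, Matrix.mul_smul, Matrix.smul_mul]
        congr 1
        calc Uᴴ * (U * D * Uᴴ) * U = (Uᴴ * U) * D * (Uᴴ * U) := by
              simp only [Matrix.mul_assoc]
          _ = D := by rw [hU1, Matrix.one_mul, Matrix.mul_one]
      · rw [Matrix.mul_sum, Matrix.sum_mul]
        refine Finset.sum_congr rfl fun i _ => ?_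
        simp only [hV', conjTranspose_mul, conjTranspose_conjTranspose]
        rw [haD]
        simp only [Matrix.mul_assoc]
    rw [e] at h
    exact h
  have E1 : ∀ η : Fin d → ℂ, ∑ i, ∑ p, α p * ‖((V' i)ᴴ *ᵥ η) p‖ ^ 2 ≤
      S * ∑ p, α p * ‖η p‖ ^ 2 := by
    intro η
    have h := hp.dotProduct_mulVec_nonneg η
    rw [Matrix.sub_mulVec, dotProduct_sub, Matrix.smul_mulVec, dotProduct_smul, hD, quadD,
      Matrix.sum_mulVec, dotProduct_sum] at h
    have e : ∀ i, star η ⬝ᵥ ((V' i * (diagonal fun p => (α p : ℂ)) * (V' i)ᴴ) *ᵥ η) =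
        ((∑ p, α p * ‖((V' i)ᴴ *ᵥ η) p‖ ^ 2 : ℝ) : ℂ) := fun i => by
      rw [conj_quad, quadD]
    rw [Finset.sum_congr rfl fun i _ => e i, smul_eq_mul] at h
    have h' : (0 : ℂ) ≤ ((S * ∑ p, α p * ‖η p‖ ^ 2 - ∑ i, ∑ p, α p * ‖((V' i)ᴴ *ᵥ η) p‖ ^ 2 : ℝ) : ℂ) := by
      push_cast
      push_cast at h
      exact h
    have h'' := Complex.zero_le_real.1 h'
    linarith
  have E2 : ∀ η : Fin d → ℂ, ∑ i, ∑ p, α p * ‖(V' i *ᵥ η) p‖ ^ 2 ≤
      S * ∑ p, α p * ‖η p‖ ^ 2 := by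
    intro η
    have h := E1 η
    rw [← Equiv.sum_comp σ] at h
    simp_rw [hV'σ, conjTranspose_conjTranspose] at h
    exact h
  obtain ⟨X, hX1, hX2⟩ := main_diag h1 V' S l hl α hα E1 E2
  refine ⟨fun i => U * X i * Uᴴ, ?_, ?_⟩
  · intro η
    have h := hX1 (Uᴴ *ᵥ η)
    rw [unit_sq Uᴴ (by rw [conjTranspose_conjTranspose]; exact hU2)] at h
    refine le_trans (le_of_eq ?_) h
    refine Finset.sum_congr rfl fun i _ => ?_
    rw [← unit_sq U hU1 (X i *ᵥ (Uᴴ *ᵥ η))]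
    rw [mulVec_mulVec, mulVec_mulVec]
  · intro η
    have h := hX2 (Uᴴ *ᵥ η)
    rw [unit_sq Uᴴ (by rw [conjTranspose_conjTranspose]; exact hU2)] at h
    refine le_trans (le_of_eq ?_) h
    refine Finset.sum_congr rfl fun i _ => ?_
    rw [← unit_sq U hU1 ((V' i - X i)ᴴ *ᵥ (Uᴴ *ᵥ η))]
    rw [mulVec_mulVec, mulVec_mulVec]
    have e : (V i - U * X i * Uᴴ)ᴴ = U * ((V' i - X i)ᴴ * Uᴴ) := by
      have : V i - U * X i * Uᴴ = U * (V' i - X i) * Uᴴ := by
        rw [Matrix.mul_sub, Matrix.sub_mul]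
        congr 1
        simp only [hV']
        calc V i = (U * Uᴴ) * V i * (U * Uᴴ) := by rw [hU2, Matrix.one_mul, Matrix.mul_one]
          _ = _ := by simp only [Matrix.mul_assoc]
      rw [this]
      simp only [conjTranspose_mul, conjTranspose_conjTranspose]
    rw [e, Matrix.mul_assoc]

end H195BP
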